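import Pool.Agent.Y290.PL.Stm

/-!
Project PL (owner helper290), part CIRC: the data on the circle exist.
-/

set_option autoImplicit false

namespace Pool.Agent.Y417.PL

open MeasureTheory Set Pool.Agent.Y290.PL
open scoped ENNReal ContDiff

lemma ej_zero (t : ℝ) : ej 0 t = 1 := by simp [ej]

lemma ej_pow (j : ℕ) (t : ℝ) : ej (-(j : ℤ)) t = (ej (-1) t) ^ j := by
  rw [ej, ej, ← Complex.exp_nat_mul]
  congr 1
  push_cast
  ring

lemma norm_ej (j : ℤ) (t : ℝ) : ‖ej j t‖ = 1 := by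
  rw [ej]
  exact Complex.norm_exp_ofReal_mul_I _

lemma ej_smooth (j : ℤ) : ContDiff ℝ ∞ (ej j) := by
  have h : ContDiff ℝ ∞ (fun t : ℝ => (((j : ℝ) * t : ℝ) : ℂ) * Complex.I) :=
    (Complex.ofRealCLM.contDiff.comp (contDiff_const.mul contDiff_id)).mul contDiff_const
  exact h.cexp

lemma ej_cont (j : ℤ) : Continuous (ej j) := (ej_smooth j).continuous

lemma ej_per (j : ℤ) (t : ℝ) : ej j (t + 2 * Real.pi) = ej j t := by
  rw [ej, ej]
  have : (((j * (t + 2 * Real.pi) : ℝ)) : ℂ) * Complex.I =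
      ((j * t : ℝ) : ℂ) * Complex.I + j * (2 * Real.pi * Complex.I) := by
    push_cast; ring
  rw [this, Complex.exp_add, Complex.exp_int_mul_two_pi_mul_I, mul_one]

/-- `1 + 2 r cos t + r ^ 2` -/
noncomputable def Q (r t : ℝ) : ℝ := 1 + 2 * r * Real.cos t + r ^ 2

lemma Q_pos {r : ℝ} (hr0 : 0 < r) (hr1 : r < 1) (t : ℝ) : 0 < Q r t := by
  have h := Real.neg_one_le_cos t
  have h1 : 0 < (1 - r) ^ 2 := by
    have : 0 < 1 - r := by linarith
    positivity
  rw [Q]
  nlinarith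

lemma Q_smooth (r : ℝ) : ContDiff ℝ ∞ (Q r) := by
  unfold Q
  fun_prop

/-- `1 + r exp (- i t)` -/
noncomputable def W (r t : ℝ) : ℂ := 1 + (r : ℂ) * ej (-1) t

lemma norm_W (r t : ℝ) : ‖W r t‖ = Real.sqrt (Q r t) := by
  have h : ‖W r t‖ ^ 2 = Q r t := by
    rw [Complex.sq_norm, Complex.normSq_apply, W]
    have h1 : (ej (-1) t).re = Real.cos t := by
      rw [ej, Complex.exp_ofReal_mul_I_re]; simp
    have h2 : (ej (-1) t).im = -Real.sin t := by
      rw [ej, Complex.exp_ofReal_mul_I_im]; simp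
    simp only [Complex.add_re, Complex.add_im, Complex.one_re, Complex.one_im, Complex.mul_re,
      Complex.mul_im, Complex.ofReal_re, Complex.ofReal_im, h1, h2, Q]
    have := Real.sin_sq_add_cos_sq t
    nlinarith
  rw [← h, Real.sqrt_sq (norm_nonneg _)]

lemma W_ne {r : ℝ} (hr0 : 0 < r) (hr1 : r < 1) (t : ℝ) : W r t ≠ 0 := by
  rw [← norm_pos_iff, norm_W]
  exact Real.sqrt_pos.2 (Q_pos hr0 hr1 t)

lemma W_smooth (r : ℝ) : ContDiff ℝ ∞ (W r) := by
  have := ej_smooth (-1)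
  exact contDiff_const.add (contDiff_const.mul this)

lemma geo {r : ℝ} (hr0 : 0 < r) (hr1 : r < 1) {G : ℝ → ℂ} (hG : Continuous G) :
    HasSum (fun j : ℕ => ∫ t in (0 : ℝ)..2 * Real.pi, (-(r : ℂ)) ^ j * (G t * ej (-(j : ℤ)) t))
      (∫ t in (0 : ℝ)..2 * Real.pi, G t / W r t) := by
  refine intervalIntegral.hasSum_integral_of_dominated_convergence
    (bound := fun j t => r ^ j * ‖G t‖) ?_ ?_ ?_ ?_ ?_
  · intro j
    exact (continuous_const.mul (hG.mul (ej_cont _))).aestronglyMeasurable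
  · intro j
    refine Filter.Eventually.of_forall fun t _ => ?_
    rw [norm_mul, norm_mul, norm_ej, mul_one, norm_pow, norm_neg, Complex.norm_real,
      Real.norm_of_nonneg hr0.le]
  · refine Filter.Eventually.of_forall fun t _ => ?_
    exact (summable_geometric_of_lt_one hr0.le hr1).mul_right _
  · have : (fun t => ∑' n : ℕ, r ^ n * ‖G t‖) = fun t => (1 - r)⁻¹ * ‖G t‖ := by
      funext t
      rw [tsum_mul_right, tsum_geometric_of_lt_one hr0.le hr1]
    rw [this]
    exact (continuous_const.mul hG.norm).intervalIntegrable _ _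
  · refine Filter.Eventually.of_forall fun t _ => ?_
    have h1 : ‖-(r : ℂ) * ej (-1) t‖ < 1 := by
      rw [norm_mul, norm_ej, mul_one, norm_neg, Complex.norm_real, Real.norm_of_nonneg hr0.le]
      exact hr1
    have h2 := (hasSum_geometric_of_norm_lt_one h1).mul_left (G t)
    have h3 : G t * (1 - -(r : ℂ) * ej (-1) t)⁻¹ = G t / W r t := by
      rw [W, div_eq_mul_inv, neg_mul, sub_neg_eq_add]
    rw [h3] at h2
    have h4 : (fun n : ℕ => (-(r : ℂ)) ^ n * (G t * ej (-(n : ℤ)) t)) =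
        fun n : ℕ => G t * (-(r : ℂ) * ej (-1) t) ^ n := by
      funext n
      rw [ej_pow, mul_pow]
      ring
    rw [h4]
    exact h2

lemma int_ej {j : ℤ} (hj : j ≠ 0) : ∫ t in (0 : ℝ)..2 * Real.pi, ej j t = 0 := by
  have hc : (j : ℂ) * Complex.I ≠ 0 := mul_ne_zero (by exact_mod_cast hj) Complex.I_ne_zero
  have h := integral_exp_mul_complex (a := 0) (b := 2 * Real.pi) hc
  have h1 : (fun t : ℝ => ej j t) = fun t : ℝ => Complex.exp ((j : ℂ) * Complex.I * t) := by
    funext t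
    rw [ej]
    congr 1
    push_cast
    ring
  rw [h1, h]
  have h2 : (j : ℂ) * Complex.I * ((2 * Real.pi : ℝ) : ℂ) = j * (2 * Real.pi * Complex.I) := by
    push_cast; ring
  rw [h2, Complex.exp_int_mul_two_pi_mul_I]
  simp

lemma int_inv_W {r : ℝ} (hr0 : 0 < r) (hr1 : r < 1) :
    ∫ t in (0 : ℝ)..2 * Real.pi, 1 / W r t = ((2 * Real.pi : ℝ) : ℂ) := by
  have h := geo hr0 hr1 (G := fun _ => (1 : ℂ)) continuous_const
  have h1 : HasSum (fun j : ℕ => ∫ t in (0 : ℝ)..2 * Real.pi,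
      (-(r : ℂ)) ^ j * (1 * ej (-(j : ℤ)) t)) ((2 * Real.pi : ℝ) : ℂ) := by
    have h2 := hasSum_single (f := fun j : ℕ => ∫ t in (0 : ℝ)..2 * Real.pi,
      (-(r : ℂ)) ^ j * (1 * ej (-(j : ℤ)) t)) 0 (by
        intro j hj
        simp only [one_mul]
        rw [intervalIntegral.integral_const_mul, int_ej (by simpa using hj), mul_zero])
    convert h2 using 1
    simp [ej_zero]
  exact h.unique h1

theorem pot_aux {p κ : ℝ → ℝ} (hp : Continuous p) (hκ : Continuous κ) (hκ0 : ∀ t, 0 ≤ κ t)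
    (hint : ∫ t in (0 : ℝ)..2 * Real.pi, p t = 0) {β S z : ℝ} (hβ : 0 ≤ β)
    (hS1 : ∫ t in (0 : ℝ)..2 * Real.pi, κ t ≤ S)
    (hS2 : ∫ t in (0 : ℝ)..2 * Real.pi, κ t * (1 + p t) ^ 2 ≤ S)
    (hV : ∫ t in (0 : ℝ)..2 * Real.pi, p t ^ 2 ≤ β * (2 * Real.pi - S)) (hz0 : 0 ≤ z)
    (hz1 : z ≤ 1) :
    ∫ t in (0 : ℝ)..2 * Real.pi, (1 + z * p t) ^ 2 * (1 + β * z * κ t) ≤
      2 * Real.pi * (1 + β * z) := by
  have hpi : (0 : ℝ) ≤ 2 * Real.pi := by positivity
  have h1 : ∫ t in (0 : ℝ)..2 * Real.pi, (1 + z * p t) ^ 2 * (1 + β * z * κ t) ≤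
      ∫ t in (0 : ℝ)..2 * Real.pi, ((1 + 2 * z * p t) + z * p t ^ 2 +
        (β * z * (1 - z) * κ t + β * z * z * (κ t * (1 + p t) ^ 2))) := by
    apply intervalIntegral.integral_mono_on hpi
    · exact (by fun_prop : Continuous fun t => (1 + z * p t) ^ 2 * (1 + β * z * κ t)).intervalIntegrable _ _
    · exact (by fun_prop : Continuous fun t => ((1 + 2 * z * p t) + z * p t ^ 2 +
        (β * z * (1 - z) * κ t + β * z * z * (κ t * (1 + p t) ^ 2)))).intervalIntegrable _ _
    · intro t _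
      have h2 : (0 : ℝ) ≤ z * (1 - z) * p t ^ 2 :=
        mul_nonneg (mul_nonneg hz0 (by linarith)) (sq_nonneg _)
      have h3 : 0 ≤ β * z * κ t := mul_nonneg (mul_nonneg hβ hz0) (hκ0 t)
      have h4 := mul_nonneg h3 h2
      nlinarith
  have h2 : ∫ t in (0 : ℝ)..2 * Real.pi, ((1 + 2 * z * p t) + z * p t ^ 2 +
        (β * z * (1 - z) * κ t + β * z * z * (κ t * (1 + p t) ^ 2))) =
      2 * Real.pi + z * (∫ t in (0 : ℝ)..2 * Real.pi, p t ^ 2) +
        (β * z * (1 - z) * (∫ t in (0 : ℝ)..2 * Real.pi, κ t) +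
          β * z * z * ∫ t in (0 : ℝ)..2 * Real.pi, κ t * (1 + p t) ^ 2) := by
    have c1 : IntervalIntegrable (fun _ : ℝ => (1 : ℝ)) volume 0 (2 * Real.pi) :=
      continuous_const.intervalIntegrable _ _
    have c2 : IntervalIntegrable (fun t : ℝ => 2 * z * p t) volume 0 (2 * Real.pi) :=
      (by fun_prop : Continuous fun t => 2 * z * p t).intervalIntegrable _ _
    have c3 : IntervalIntegrable (fun t : ℝ => z * p t ^ 2) volume 0 (2 * Real.pi) :=
      (by fun_prop : Continuous fun t => z * p t ^ 2).intervalIntegrable _ _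
    have c4 : IntervalIntegrable (fun t : ℝ => β * z * (1 - z) * κ t) volume 0 (2 * Real.pi) :=
      (by fun_prop : Continuous fun t => β * z * (1 - z) * κ t).intervalIntegrable _ _
    have c5 : IntervalIntegrable (fun t : ℝ => β * z * z * (κ t * (1 + p t) ^ 2)) volume 0
        (2 * Real.pi) :=
      (by fun_prop : Continuous fun t => β * z * z * (κ t * (1 + p t) ^ 2)).intervalIntegrable _ _
    rw [intervalIntegral.integral_add ((c1.add c2).add c3) (c4.add c5),
      intervalIntegral.integral_add (c1.add c2) c3, intervalIntegral.integral_add c1 c2,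
      intervalIntegral.integral_add c4 c5, intervalIntegral.integral_const_mul,
      intervalIntegral.integral_const_mul, intervalIntegral.integral_const_mul,
      intervalIntegral.integral_const_mul, hint, intervalIntegral.integral_const]
    simp
  rw [h2] at h1
  refine h1.trans ?_
  have h3 : 0 ≤ β * z * (1 - z) := mul_nonneg (mul_nonneg hβ hz0) (by linarith)
  have h4 : 0 ≤ β * z * z := mul_nonneg (mul_nonneg hβ hz0) hz0
  have h5 := mul_le_mul_of_nonneg_left hS1 h3
  have h6 := mul_le_mul_of_nonneg_left hS2 h4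
  have h7 := mul_le_mul_of_nonneg_left hV hz0
  nlinarith

theorem t_CIRC (hFS : S_FS) (hMOB : S_MOB) (hNUM : S_NUM) (hCMP : S_CMP) : S_CIRC := by
  obtain ⟨r, m, κ, hr0, hr1, hms, hκs, hmp, hκp, hm0, hm1, hκ0, hκ1, hmκ, hI, hk1, hk2⟩ := hNUM
  obtain ⟨hφs, hφp, hφd, -, -⟩ := hMOB r (by rw [abs_of_pos hr0]; exact hr1)
  have hpi := Real.pi_pos
  set I0 : ℝ := ∫ t in (0 : ℝ)..2 * Real.pi, m t / Real.sqrt (1 + 2 * r * Real.cos t + r ^ 2)
    with hI0
  have hI0pos : 0 < I0 := by linarith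
  set θ : ℝ := 2 * Real.pi / I0 with hθ
  have hθ0 : 0 < θ := by positivity
  have hθ1 : θ < 1 := by rw [hθ, div_lt_one hI0pos]; exact hI
  have hsq : ∀ t, 0 < Real.sqrt (Q r t) := fun t => Real.sqrt_pos.2 (Q_pos hr0 hr1 t)
  have hsqs : ContDiff ℝ ∞ (fun t => Real.sqrt (Q r t)) :=
    (Q_smooth r).sqrt fun t => (Q_pos hr0 hr1 t).ne'
  have hRs : ContDiff ℝ ∞ (fun t => θ * m t / Real.sqrt (Q r t)) :=
    (contDiff_const.mul hms).div hsqs fun t => (hsq t).ne'
  set M : ℝ → ℂ := fun t => ((θ * m t / Real.sqrt (Q r t) : ℝ) : ℂ) * W r t with hM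
  have hMs : ContDiff ℝ ∞ M := (Complex.ofRealCLM.contDiff.comp hRs).mul (W_smooth r)
  have hMθ : ∀ t, ‖M t‖ ≤ θ := by
    intro t
    rw [hM]
    simp only
    rw [norm_mul, norm_W, Complex.norm_real, Real.norm_of_nonneg
      (div_nonneg (mul_nonneg hθ0.le (hm0 t)) (hsq t).le), div_mul_cancel₀ _ (hsq t).ne']
    nlinarith [hm1 t, hm0 t]
  have hQp : ∀ t, Q r (t + 2 * Real.pi) = Q r t := by
    intro t; rw [Q, Q, Real.cos_add_two_pi]
  have hMp : ∀ t, M (t + 2 * Real.pi) = M t := by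
    intro t
    simp only [hM, W, hmp, hQp, ej_per]
  obtain ⟨c, hc1, hc2, hc3⟩ := hFS.1 (fun t => M t - 1) (hMs.sub contDiff_const)
    (fun t => by rw [hMp])
  have hsum : ∀ k : ℕ, Summable fun j : ℕ => (j : ℝ) ^ k * ‖c (j : ℤ)‖ := by
    intro k
    have h := (hc1 k).comp_injective (i := fun j : ℕ => (j : ℤ)) Nat.cast_injective
    refine h.congr fun j => ?_
    simp
  have hsum' : ∀ k : ℕ, Summable fun j : ℕ => (j : ℝ) ^ k * ‖c (-((j : ℤ) + 1))‖ := by
    intro k
    have h := (hc1 k).comp_injective (i := fun j : ℕ => -((j : ℤ) + 1)) (by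
      intro i j hij
      simp only at hij
      omega)
    refine Summable.of_nonneg_of_le (fun j => by positivity) (fun j => ?_) h
    simp only [Function.comp_apply]
    refine mul_le_mul_of_nonneg_right (pow_le_pow_left₀ (Nat.cast_nonneg _) ?_ k) (norm_nonneg _)
    push_cast
    rw [abs_neg, abs_of_nonneg (by positivity)]
    linarith
  have hMc : Continuous M := hMs.continuous
  have hkey : ∑' j : ℕ, c j * (-(r : ℂ)) ^ j = 0 := by
    have h := geo hr0 hr1 (G := fun t => M t - 1) (hMc.sub continuous_const)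
    have h1 : ∫ t in (0 : ℝ)..2 * Real.pi, (M t - 1) / W r t = 0 := by
      have h2 : (fun t => (M t - 1) / W r t) =
          fun t => ((θ * m t / Real.sqrt (Q r t) : ℝ) : ℂ) - 1 / W r t := by
        funext t
        rw [sub_div, hM]
        simp only
        rw [mul_div_assoc, div_self (W_ne hr0 hr1 t), mul_one]
      have hW : Continuous fun t => 1 / W r t :=
        continuous_const.div (W_smooth r).continuous fun t => W_ne hr0 hr1 t
      have hR : Continuous fun t => ((θ * m t / Real.sqrt (Q r t) : ℝ) : ℂ) :=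
        Complex.continuous_ofReal.comp hRs.continuous
      rw [h2, intervalIntegral.integral_sub (hR.intervalIntegrable _ _)
        (hW.intervalIntegrable _ _), int_inv_W hr0 hr1, intervalIntegral.integral_ofReal]
      have h3 : ∫ t in (0 : ℝ)..2 * Real.pi, θ * m t / Real.sqrt (Q r t) = 2 * Real.pi := by
        have h4 : (fun t => θ * m t / Real.sqrt (Q r t)) = fun t => θ * (m t / Real.sqrt (Q r t)) := by
          funext t; ring
        rw [h4, intervalIntegral.integral_const_mul]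
        have h5 : ∫ t in (0 : ℝ)..2 * Real.pi, m t / Real.sqrt (Q r t) = I0 := rfl
        rw [h5, hθ, div_mul_cancel₀ _ hI0pos.ne']
      rw [h3, sub_self]
    rw [h1] at h
    have h6 : HasSum (fun j : ℕ => c j * (-(r : ℂ)) ^ j) 0 := by
      have h7 := h.mul_left (((1 / (2 * Real.pi) : ℝ) : ℂ))
      rw [mul_zero] at h7
      have h8 : (fun j : ℕ => c j * (-(r : ℂ)) ^ j) = fun j : ℕ => ((1 / (2 * Real.pi) : ℝ) : ℂ) *
          ∫ t in (0 : ℝ)..2 * Real.pi, (-(r : ℂ)) ^ j * ((M t - 1) * ej (-(j : ℤ)) t) := by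
        funext j
        rw [intervalIntegral.integral_const_mul, hc3 j]
        ring
      rw [h8]
      exact h7
    exact h6.tsum_eq
  obtain ⟨A, a, hFA, hA⟩ := hCMP r hr0 hr1 (fun j : ℕ => c j) hsum hkey
  set b : ℕ → ℂ := fun j => c (-((j : ℤ) + 1)) with hb
  -- the potential
  set p : ℝ → ℝ := deriv (mob r) with hp
  have hpc : Continuous p := hφs.continuous_deriv (by simp)
  have hψ : ∀ t, 1 + p t = (1 - r ^ 2) / (1 + 2 * r * Real.cos t + r ^ 2) := hφd
  have hint : ∫ t in (0 : ℝ)..2 * Real.pi, p t = 0 := by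
    rw [hp, intervalIntegral.integral_deriv_eq_sub
      (fun x _ => (hφs.differentiable (by simp)).differentiableAt) (hpc.intervalIntegrable _ _)]
    have := hφp 0
    rw [zero_add] at this
    rw [this, sub_self]
  set S : ℝ := max (∫ t in (0 : ℝ)..2 * Real.pi, κ t)
    (∫ t in (0 : ℝ)..2 * Real.pi, κ t * (1 + p t) ^ 2) with hS
  have hS2 : S < 2 * Real.pi := by
    refine max_lt hk1 ?_
    have : (fun t => κ t * (1 + p t) ^ 2) =
        fun t => κ t * ((1 - r ^ 2) / (1 + 2 * r * Real.cos t + r ^ 2)) ^ 2 := by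
      funext t; rw [hψ]
    rw [this]
    exact hk2
  set V : ℝ := ∫ t in (0 : ℝ)..2 * Real.pi, p t ^ 2 with hV
  have hV0 : 0 ≤ V := intervalIntegral.integral_nonneg (by positivity) fun t _ => sq_nonneg _
  set β : ℝ := V / (2 * Real.pi - S) with hβ
  have hβ0 : 0 ≤ β := div_nonneg hV0 (by linarith)
  refine ⟨mob r, κ, A, fun t => ∑' j : ℕ, b j * ej (-(j + 1)) t, M, a, b, θ, β, ?_⟩
  refine ⟨⟨hφs, hκs, hφp, hκp, fun t => ?_, hκ0, hκ1, hβ0, fun z hz => ?_⟩, hFA,
    ⟨hFS.2.2 b hsum', ?_, fun t => rfl⟩, hMs, fun t ht => ?_, fun t => ?_, hMθ, hθ0, hθ1⟩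
  · rw [hφd t]
    exact div_pos (by nlinarith) (Q_pos hr0 hr1 t)
  · exact pot_aux hpc hκs.continuous hκ0 hint hβ0 (le_max_left _ _) (le_max_right _ _)
      (by rw [hβ, div_mul_cancel₀ _ (by linarith : (2 * Real.pi - S) ≠ 0)]) hz.1 hz.2
  · exact (hsum' 0).congr fun j => by rw [pow_zero, one_mul]
  · apply hmκ
    intro h0
    apply ht
    rw [hM]
    simp [h0]
  · have hs : Summable fun j : ℕ => c (j : ℤ) * ej (j : ℤ) t := by
      apply Summable.of_norm
      refine (hsum 0).congr fun j => ?_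
      rw [norm_mul, norm_ej]; simp
    have hs' : Summable fun j : ℕ => c (-((j : ℤ) + 1)) * ej (-((j : ℤ) + 1)) t := by
      apply Summable.of_norm
      refine (hsum' 0).congr fun j => ?_
      rw [norm_mul, norm_ej]; simp
    have h1 := tsum_of_nat_of_neg_add_one (f := fun j : ℤ => c j * ej j t) hs hs'
    rw [hA t]
    have h2 := hc2 t
    rw [h2, h1]

end Pool.Agent.Y417.PL
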